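import Mathlib.RingTheory.PowerSeries.Derivative
import Mathlib.RingTheory.PowerSeries.Inverse
import Mathlib.RingTheory.PowerSeries.Substitution
import Mathlib.Tactic

/-!
# Project GP, job OD: the differential equation of a composed system, algebra of power series
-/

set_option autoImplicit false

open PowerSeries

namespace Pool.Agent.V5helper41.GPO

/-- `c x ^ d / P` -/
noncomputable def RR (c d : ℕ) (P : ℚ⟦X⟧) : ℚ⟦X⟧ := C (c : ℚ) * X ^ d * P⁻¹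

/-- the logarithm of `P / P(0)` -/
noncomputable def LL (P : ℚ⟦X⟧) : ℚ⟦X⟧ :=
  PowerSeries.mk fun n => if n = 0 then 0 else coeff (n - 1) (d⁄dX ℚ P * P⁻¹) / (n : ℚ)

variable {c d : ℕ} {P : ℚ⟦X⟧}

lemma LL_der : d⁄dX ℚ (LL P) = d⁄dX ℚ P * P⁻¹ := by
  ext n
  rw [coeff_derivative, LL, coeff_mk, if_neg (Nat.succ_ne_zero n), Nat.add_sub_cancel]
  have h : ((n + 1 : ℕ) : ℚ) ≠ 0 := by exact_mod_cast Nat.succ_ne_zero n
  push_cast at h ⊢
  field_simp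

lemma LL_zero : constantCoeff (LL P) = 0 := by
  rw [← coeff_zero_eq_constantCoeff_apply, LL, coeff_mk, if_pos rfl]

lemma LL_eq (hP : constantCoeff P ≠ 0) : P * (X * d⁄dX ℚ (LL P)) = X * d⁄dX ℚ P := by
  rw [LL_der]
  have h := PowerSeries.mul_inv_cancel P hP
  linear_combination (X * d⁄dX ℚ P) * h

lemma RR_P (hP : constantCoeff P ≠ 0) : RR c d P * P = (c : ℚ⟦X⟧) * X ^ d := by
  rw [RR, mul_assoc, PowerSeries.inv_mul_cancel P hP, mul_one, map_natCast]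

lemma RR_zero (hd : 1 ≤ d) : constantCoeff (RR c d P) = 0 := by
  rw [RR, map_mul, map_mul, map_pow, constantCoeff_X, zero_pow (by omega), mul_zero, zero_mul]

lemma RR_subst (hd : 1 ≤ d) : HasSubst (RR c d P) := HasSubst.of_constantCoeff_zero' (RR_zero hd)

/-- `d P - x P'` -/
noncomputable def qq (d : ℕ) (P : ℚ⟦X⟧) : ℚ⟦X⟧ := (d : ℚ⟦X⟧) * P - X * d⁄dX ℚ P

lemma RR_der (hd : 1 ≤ d) (hP : constantCoeff P ≠ 0) :
    P * (X * d⁄dX ℚ (RR c d P)) = qq d P * RR c d P := by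
  have h1 := congrArg (d⁄dX ℚ) (RR_P (c := c) (d := d) hP)
  have hc : d⁄dX ℚ (c : ℚ⟦X⟧) = 0 := by
    have : (c : ℚ⟦X⟧) = C (c : ℚ) := by rw [map_natCast]
    rw [this, derivative_C]
  have hX : X * d⁄dX ℚ ((X : ℚ⟦X⟧) ^ d) = (d : ℚ⟦X⟧) * X ^ d := by
    obtain ⟨m, rfl⟩ : ∃ m, d = m + 1 := ⟨d - 1, by omega⟩
    rw [Derivation.leibniz_pow, derivative_X, Nat.add_sub_cancel]
    simp only [smul_eq_mul, nsmul_eq_mul, mul_one]
    ring
  rw [Derivation.leibniz, Derivation.leibniz, hc] at h1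
  simp only [smul_eq_mul, mul_zero, add_zero] at h1
  have h2 := RR_P (c := c) (d := d) hP
  rw [qq]
  linear_combination X * h1 + (c : ℚ⟦X⟧) * hX - (d : ℚ⟦X⟧) * h2

lemma sub_der (hd : 1 ≤ d) (hP : constantCoeff P ≠ 0) (f : ℚ⟦X⟧) :
    P * (X * d⁄dX ℚ (f.subst (RR c d P))) = qq d P * (X * d⁄dX ℚ f).subst (RR c d P) := by
  rw [derivative_subst (RR_subst hd), subst_mul (RR_subst hd), subst_X (RR_subst hd)]
  have h := RR_der (c := c) hd hP
  linear_combination (d⁄dX ℚ f).subst (RR c d P) * h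

lemma sub_zero (hd : 1 ≤ d) (f : ℚ⟦X⟧) :
    constantCoeff (f.subst (RR c d P) : ℚ⟦X⟧) = constantCoeff f := by
  have h1 : f = C (constantCoeff f) + (f - C (constantCoeff f)) := by ring
  have h2 : constantCoeff (f - C (constantCoeff f)) = 0 := by simp
  have h3 := constantCoeff_subst_eq_zero (RR_zero (c := c) (P := P) hd) _ h2
  have h4 : (C (constantCoeff f) : ℚ⟦X⟧).subst (RR c d P) = C (constantCoeff f) := subst_C _
  conv_lhs => rw [h1, subst_add (RR_subst hd), map_add, h4]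
  have h5 : constantCoeff ((f - C (constantCoeff f)).subst (RR c d P) : ℚ⟦X⟧) = 0 := h3
  rw [h5, add_zero, constantCoeff_C]

variable {F G F1 G1 : ℚ⟦X⟧}

/-- the series of a polynomial identity under substitution -/
lemma sub_lin (hd : 1 ≤ d) {a b A : ℚ⟦X⟧}
    (h : (1 - 1728 * X) ^ 2 * a = X * (82944 * X - 372) * b)
    (ha : A = a.subst (RR c d P)) :
    (1 - 1728 * RR c d P) ^ 2 * A = RR c d P * (82944 * RR c d P - 372) * b.subst (RR c d P) := by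
  have hs := RR_subst (c := c) (P := P) hd
  have h1 := congrArg (substAlgHom (R := ℚ) hs) h
  simp only [map_mul, map_pow, map_sub, map_one, map_ofNat, substAlgHom_X, coe_substAlgHom] at h1
  rw [ha]
  exact h1

/-- **The differential equation.** -/
theorem od (hd : 1 ≤ d) (hP : constantCoeff P ≠ 0) (hF1 : F1 = X * d⁄dX ℚ F)
    (hG1 : G1 = X * d⁄dX ℚ G + F)
    (h1 : (1 - 1728 * X) ^ 2 * (X * d⁄dX ℚ F1) = X * (82944 * X - 372) * F)
    (h2 : (1 - 1728 * X) ^ 2 * (X * d⁄dX ℚ G1 + F1) = X * (82944 * X - 372) * G)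
    (h3 : F * G1 - F1 * G = 1) {f g f1 g1 L Z : ℚ⟦X⟧} (hf : f = F.subst (RR c d P))
    (hg : g = G.subst (RR c d P)) (hf1 : f1 = F1.subst (RR c d P))
    (hg1 : g1 = G1.subst (RR c d P)) (hL : L = LL P) (hZ : Z = (c : ℚ⟦X⟧) * X ^ d) :
    f * g1 - g * f1 = 1 ∧
    P * (P - 1728 * Z) ^ 2 * (X * d⁄dX ℚ f) = qq d P * (P - 1728 * Z) ^ 2 * f1 ∧
    P * (P - 1728 * Z) ^ 2 * (X * d⁄dX ℚ (g - f * L) + f * (d : ℚ⟦X⟧)) =
      qq d P * (P - 1728 * Z) ^ 2 * (g1 - f1 * L) ∧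
    P * (P - 1728 * Z) ^ 2 * (X * d⁄dX ℚ f1) = qq d P * Z * (82944 * Z - 372 * P) * f ∧
    P * (P - 1728 * Z) ^ 2 * (X * d⁄dX ℚ (g1 - f1 * L) + f1 * (d : ℚ⟦X⟧)) =
      qq d P * Z * (82944 * Z - 372 * P) * (g - f * L) := by
  have hs := RR_subst (c := c) (P := P) hd
  have e0 : P * (X * d⁄dX ℚ f) = qq d P * f1 := by
    rw [hf, hf1, hF1]; exact sub_der hd hP F
  have e1 : P * (X * d⁄dX ℚ g) = qq d P * (g1 - f) := by
    have h4 : X * d⁄dX ℚ G = G1 - F := by rw [hG1]; ring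
    have h5 := sub_der (c := c) hd hP G
    rw [h4, subst_sub hs] at h5
    rw [hg, hg1, hf]; exact h5
  have e2 : P * (X * d⁄dX ℚ f1) = qq d P * (X * d⁄dX ℚ F1).subst (RR c d P) := by
    rw [hf1]; exact sub_der hd hP F1
  have e3 : P * (X * d⁄dX ℚ g1) =
      qq d P * ((X * d⁄dX ℚ G1 + F1).subst (RR c d P) - f1) := by
    have h5 := sub_der (c := c) hd hP G1
    rw [subst_add hs, hg1, hf1, h5]; ring
  have eL : P * (X * d⁄dX ℚ L) = (d : ℚ⟦X⟧) * P - qq d P := by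
    rw [hL, LL_eq hP, qq]; ring
  have eA := sub_lin (c := c) (P := P) hd h1 rfl
  have eB := sub_lin (c := c) (P := P) hd h2 rfl
  rw [← hf] at eA
  rw [← hg] at eB
  have hZ' : Z = RR c d P * P := by rw [hZ, RR_P hP]
  obtain ⟨A, hA⟩ : ∃ A, A = (X * d⁄dX ℚ F1).subst (RR c d P) := ⟨_, rfl⟩
  obtain ⟨B, hB⟩ : ∃ B, B = (X * d⁄dX ℚ G1 + F1).subst (RR c d P) := ⟨_, rfl⟩
  obtain ⟨R, hR⟩ : ∃ R, R = RR c d P := ⟨_, rfl⟩
  rw [← hA] at e2 eA
  rw [← hB] at e3 eB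
  rw [← hR] at eA eB hZ'
  have l1 : d⁄dX ℚ (g - f * L) = d⁄dX ℚ g - (f * d⁄dX ℚ L + L * d⁄dX ℚ f) := by
    rw [map_sub, Derivation.leibniz]; simp only [smul_eq_mul]
  have l2 : d⁄dX ℚ (g1 - f1 * L) = d⁄dX ℚ g1 - (f1 * d⁄dX ℚ L + L * d⁄dX ℚ f1) := by
    rw [map_sub, Derivation.leibniz]; simp only [smul_eq_mul]
  refine ⟨?_, ?_, ?_, ?_, ?_⟩
  · have h4 := congrArg (substAlgHom (R := ℚ) hs) h3
    simp only [map_mul, map_sub, map_one, coe_substAlgHom] at h4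
    rw [hf, hg, hf1, hg1]
    linear_combination h4
  · linear_combination (P - 1728 * Z) ^ 2 * e0
  · rw [l1]
    linear_combination (P - 1728 * Z) ^ 2 * (e1 - L * e0 - f * eL)
  · rw [hZ']
    linear_combination (P - 1728 * (R * P)) ^ 2 * e2 + qq d P * P ^ 2 * eA
  · rw [l2, hZ']
    linear_combination (P - 1728 * (R * P)) ^ 2 * (e3 - L * e2 - f1 * eL) +
      qq d P * P ^ 2 * (eB - L * eA)

end Pool.Agent.V5helper41.GPO
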